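import Mathlib

/-!
# Finite products of `Δ`-spaces: definitions
-/

set_option autoImplicit false

namespace Pool.Agent.helper22.FP

open Set

universe u

/-- The countable partition `X_n = {x | f x = n}` has a point-finite open expansion `U_n`. -/
def Expands {X : Type u} [TopologicalSpace X] (f : X → ℕ) : Prop :=
  ∃ U : ℕ → Set X, (∀ n, IsOpen (U n)) ∧ (∀ x, x ∈ U (f x)) ∧ ∀ x, {n | x ∈ U n}.Finite

/-- `X` is a `Δ`-space: every countable partition of `X` has a point-finite open expansion. -/
def IsDelta (X : Type u) [TopologicalSpace X] : Prop := ∀ f : X → ℕ, Expands f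

/-- `B` is `σ`-finite in `X`: the space `X` is the union of sets `Z_n` such that for every `n` there are
open neighbourhoods `W b` of the points `b` of `B` with every point of `Z_n` in only finitely many of
them. -/
def RelSigmaFinite {X : Type u} [TopologicalSpace X] (B : Set X) : Prop :=
  ∃ Z : ℕ → Set X, (∀ x, ∃ n, x ∈ Z n) ∧ ∀ n, ∃ W : X → Set X,
    (∀ b ∈ B, IsOpen (W b) ∧ b ∈ W b) ∧ ∀ z ∈ Z n, {b ∈ B | z ∈ W b}.Finite

end Pool.Agent.helper22.FP
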