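import Pool.Agent.helper22.FP.Main

/-!
# Finite products of `Δ`-spaces: the theorem
-/

set_option autoImplicit false

namespace Pool.Agent.helper22.FP

open Set Cardinal

universe u

section

variable {I : Type} [DecidableEq I] {X : I → Type u}

omit [DecidableEq I] in
/-- subproducts of subproducts -/
theorem isDelta_sub [∀ i, TopologicalSpace (X i)] (S : Finset I) (T : Finset S)
    (hT : IsDelta (∀ i : (T.map (Function.Embedding.subtype _) : Finset I), X i)) :
    IsDelta (∀ i : T, X i.1.1) := by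
  have h1 : ∀ i : (T.map (Function.Embedding.subtype _) : Finset I),
      ∃ h : i.1 ∈ S, (⟨i.1, h⟩ : S) ∈ T := by
    intro i
    obtain ⟨j, hj, hji⟩ := Finset.mem_map.1 i.2
    have h2 : j.1 = i.1 := hji
    refine ⟨by rw [← h2]; exact j.2, ?_⟩
    have h3 : (⟨i.1, by rw [← h2]; exact j.2⟩ : S) = j := Subtype.ext h2.symm
    rw [h3]
    exact hj
  refine isDelta_of_injective hT (φ := fun y i => y ⟨⟨i.1, (h1 i).choose⟩, (h1 i).choose_spec⟩)
    (continuous_pi fun i => continuous_apply _) ?_
  intro y y' h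
  funext j
  have h2 := congrFun h ⟨j.1.1, Finset.mem_map.2 ⟨j.1, j.2, rfl⟩⟩
  exact h2

theorem isDelta_of_subsingleton {Y : Type u} [TopologicalSpace Y] [Subsingleton Y] : IsDelta Y :=
  isDelta_of_good fun f => ⟨fun _ => univ, fun _ => isOpen_univ, fun x => mem_univ x,
    fun p => ⟨f p, fun x _ => by rw [Subsingleton.elim x p]⟩⟩

end

/-- The theorem on finite products. -/
theorem products (k : ℕ) (I : Type) [Fintype I] [DecidableEq I] (X : I → Type u)
    [∀ i, Nonempty (X i)] (A : ∀ i, Set (X i)) (hA : ∀ i, #(A i) ≤ ℵ_ (k : ℕ)) :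
    ∃ E : ∀ S : Finset I, (∀ i : S, X i) → ℕ, ∀ [∀ i, TopologicalSpace (X i)],
      (∀ i, RelSigmaFinite (A i)ᶜ) →
      List.TFAE [IsDelta (∀ i, X i),
        ∀ S : Finset I, S.card ≤ k + 1 → IsDelta (∀ i : S, X i),
        (∀ S : Finset I, S.card ≤ k → IsDelta (∀ i : S, X i)) ∧
          ∀ S : Finset I, S.card = k + 1 → Expands (E S)] := by
  choose F hF1 hF2 hF3 using fun S : Finset I => kur k S (fun i => X i) (fun i => A i) fun i => hA i
  refine ⟨fun S x => ∑ S' : Finset S, ∑ i : S, idx (F S S' i x) (x i), ?_⟩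
  intro _ hB
  tfae_have 1 → 2 := fun h S _ => isDelta_of_injective h (ext_continuous S) (ext_injective S)
  tfae_have 2 → 3 := fun h => ⟨fun S hS => h S (by omega), fun S hS => h S hS.le _⟩
  tfae_have 3 → 2 := by
    rintro ⟨h1, h2⟩ S hS
    rcases Nat.lt_or_ge S.card (k + 1) with h3 | h3
    · exact h1 S (by omega)
    · have h4 : S.card = k + 1 := by omega
      refine main_three k (by rw [Fintype.card_coe, h4]) (fun i : S => A i) (fun i => hB i) (F S)
        (hF1 S) (hF2 S) (hF3 S) ?_ ((expands_iff _).1 (h2 S h4))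
      rintro g ⟨T, hT, hg⟩
      refine good_depends T (isDelta_sub S T (h1 _ ?_)) g hg
      rw [Finset.card_map]
      exact hT
  tfae_have 2 → 1 := fun h => main_two k A hA hB h
  tfae_finish

/-- two factors -/
theorem pair (X Y : Type u) (A : Set X) (B : Set Y) (hA : #A ≤ ℵ_ 1) (hB : #B ≤ ℵ_ 1) :
    ∃ E : X × Y → ℕ, ∀ [TopologicalSpace X] [TopologicalSpace Y],
      RelSigmaFinite Aᶜ → RelSigmaFinite Bᶜ → IsDelta X → IsDelta Y →
      (IsDelta (X × Y) ↔ Expands E) := by
  rcases isEmpty_or_nonempty X with hX | hX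
  · refine ⟨fun _ => 0, fun _ _ _ _ => ⟨fun h => h _, fun _ => isDelta_of_subsingleton⟩⟩
  rcases isEmpty_or_nonempty Y with hY | hY
  · refine ⟨fun _ => 0, fun _ _ _ _ => ⟨fun h => h _, fun _ => isDelta_of_subsingleton⟩⟩
  obtain ⟨Z, hZ⟩ : ∃ Z : Bool → Type u, Z = fun b => cond b X Y := ⟨_, rfl⟩
  let C : ∀ b : Bool, Set (cond b X Y) := fun b => match b with
    | true => A
    | false => B
  have hC : ∀ b, #(C b) ≤ ℵ_ (1 : ℕ) := by
    intro b
    rw [Nat.cast_one]
    cases b
    · exact hB
    · exact hA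
  have hne : ∀ b : Bool, Nonempty (cond b X Y) := by
    intro b
    cases b
    · exact hY
    · exact hX
  obtain ⟨E, hE⟩ := products 1 Bool (fun b => cond b X Y) C hC
  let φ : X × Y → ∀ b : Bool, cond b X Y := fun p b => match b with
    | true => p.1
    | false => p.2
  refine ⟨fun p => E Finset.univ fun i => φ p i.1, ?_⟩
  intro τX τY hA' hB' hdX hdY
  refine ⟨fun h => h _, fun h => ?_⟩
  let τ : ∀ b : Bool, TopologicalSpace (cond b X Y) := fun b => match b with
    | true => τX
    | false => τY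
  have hφ : Continuous φ := by
    refine continuous_pi fun b => ?_
    cases b
    · exact continuous_snd
    · exact continuous_fst
  have hφi : Function.Injective φ := by
    intro p p' hpp
    exact Prod.ext (congrFun hpp true) (congrFun hpp false)
  have hd : ∀ b : Bool, IsDelta (cond b X Y) := by
    intro b
    cases b
    · exact hdY
    · exact hdX
  have hR : ∀ b : Bool, RelSigmaFinite (C b)ᶜ := by
    intro b
    cases b
    · exact hB'
    · exact hA'
  have hT := hE hR
  have h02 := hT.out 0 2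
  refine isDelta_of_injective (h02.2 ⟨fun S hS => ?_, fun S hS => ?_⟩) hφ hφi
  · rcases Finset.card_le_one_iff_subset_singleton.1 hS with ⟨b, hb⟩
    by_cases hbS : b ∈ S
    · refine isDelta_of_injective (hd b) (φ := fun y => y ⟨b, hbS⟩) (continuous_apply _) ?_
      intro y y' hyy
      funext i
      obtain ⟨j, hj⟩ := i
      have h1 : j = b := Finset.mem_singleton.1 (hb hj)
      subst h1
      exact hyy
    · have h1 : IsEmpty S := ⟨fun i => hbS (by
        have := Finset.mem_singleton.1 (hb i.2)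
        rw [← this]
        exact i.2)⟩
      exact isDelta_of_subsingleton
  · have h1 : S = Finset.univ := by
      rw [← Finset.card_eq_iff_eq_univ, hS]
      rfl
    subst h1
    rw [expands_iff]
    have hψ : Continuous (fun (y : ∀ i : (Finset.univ : Finset Bool), cond i.1 X Y) =>
        ((y ⟨true, Finset.mem_univ _⟩, y ⟨false, Finset.mem_univ _⟩) : X × Y)) :=
      (continuous_apply (⟨true, Finset.mem_univ _⟩ : (Finset.univ : Finset Bool))).prodMk
        (continuous_apply (⟨false, Finset.mem_univ _⟩ : (Finset.univ : Finset Bool)))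
    obtain ⟨W, w1, w2, w3⟩ := ((expands_iff _).1 h).comp hψ
    refine ⟨W, w1, w2, fun p => ?_⟩
    obtain ⟨m, hm⟩ := w3 p
    refine ⟨m, fun x hx => ?_⟩
    have h2 := hm x hx
    have h3 : (fun i : (Finset.univ : Finset Bool) =>
        φ (x ⟨true, Finset.mem_univ _⟩, x ⟨false, Finset.mem_univ _⟩) i.1) = x := by
      funext i
      obtain ⟨b, hb⟩ := i
      cases b
      · rfl
      · rfl
    rw [h3] at h2
    exact h2

/-- the isolated points -/
theorem isolated (X : Type u) [TopologicalSpace X] : RelSigmaFinite {x : X | IsOpen ({x} : Set X)} :=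
  ⟨fun _ => univ, fun x => ⟨0, mem_univ x⟩, fun _ => ⟨fun b => {b}, fun _ hb => ⟨hb, rfl⟩,
    fun z _ => (Set.finite_singleton z).subset fun _ hb => hb.2.symm⟩⟩

end Pool.Agent.helper22.FP
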