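import Pool.Agent.helper22.FP.Defs

/-!
# Finite products of `Δ`-spaces: proofs
-/

set_option autoImplicit false

namespace Pool.Agent.helper22.FP

open Set Cardinal

universe u

/-! ### good functions -/

/-- a neighbourhood assignment for which `f` is bounded on all the sets `{x | p ∈ W x}` -/
def Good {X : Type u} [TopologicalSpace X] (f : X → ℕ) : Prop :=
  ∃ W : X → Set X, (∀ x, IsOpen (W x)) ∧ (∀ x, x ∈ W x) ∧ ∀ p, ∃ m, ∀ x, p ∈ W x → f x ≤ m

theorem expands_iff {X : Type u} [TopologicalSpace X] (f : X → ℕ) : Expands f ↔ Good f := by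
  constructor
  · rintro ⟨U, h1, h2, h3⟩
    refine ⟨fun x => U (f x), fun x => h1 _, h2, fun p => ?_⟩
    obtain ⟨m, hm⟩ := (h3 p).bddAbove
    exact ⟨m, fun x hx => hm hx⟩
  · rintro ⟨W, h1, h2, h3⟩
    refine ⟨fun n => ⋃ x ∈ {x | f x = n}, W x, fun n => isOpen_biUnion fun x _ => h1 x,
      fun x => Set.mem_biUnion (show x ∈ {y | f y = f x} from rfl) (h2 x), fun p => ?_⟩
    obtain ⟨m, hm⟩ := h3 p
    refine (Set.finite_Iic m).subset ?_
    intro n hn
    obtain ⟨x, hx, hp⟩ := Set.mem_iUnion₂.1 hn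
    have h4 := hm x hp
    have h5 : f x = n := hx
    rwa [h5] at h4

section

variable {X : Type u} [TopologicalSpace X]

theorem Good.mono {f g : X → ℕ} (hg : Good g) (h : ∀ x, f x ≤ g x) : Good f := by
  obtain ⟨W, h1, h2, h3⟩ := hg
  refine ⟨W, h1, h2, fun p => ?_⟩
  obtain ⟨m, hm⟩ := h3 p
  exact ⟨m, fun x hx => (h x).trans (hm x hx)⟩

theorem good_const (c : ℕ) : Good (fun _ : X => c) :=
  ⟨fun _ => univ, fun _ => isOpen_univ, fun x => mem_univ x, fun _ => ⟨c, fun _ _ => le_rfl⟩⟩

theorem Good.add {f g : X → ℕ} (hf : Good f) (hg : Good g) : Good (fun x => f x + g x) := by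
  obtain ⟨W, h1, h2, h3⟩ := hf
  obtain ⟨V, v1, v2, v3⟩ := hg
  refine ⟨fun x => W x ∩ V x, fun x => (h1 x).inter (v1 x), fun x => ⟨h2 x, v2 x⟩, fun p => ?_⟩
  obtain ⟨m, hm⟩ := h3 p
  obtain ⟨m', hm'⟩ := v3 p
  exact ⟨m + m', fun x hx => Nat.add_le_add (hm x hx.1) (hm' x hx.2)⟩

theorem good_sum {ι : Type*} (s : Finset ι) (f : ι → X → ℕ) (h : ∀ i ∈ s, Good (f i)) :
    Good (fun x => ∑ i ∈ s, f i x) := by
  classical
  induction s using Finset.induction_on with
  | empty => simpa using good_const (X := X) 0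
  | insert a s ha ih =>
    have h1 := (h a (Finset.mem_insert_self a s)).add
      (ih fun i hi => h i (Finset.mem_insert_of_mem hi))
    refine h1.mono fun x => ?_
    rw [Finset.sum_insert ha]

theorem Good.select {N : X → ℕ} (hN : Good N) {f : ℕ → X → ℕ} (hf : ∀ i, Good (f i)) :
    Good (fun x => f (N x) x) := by
  obtain ⟨W, h1, h2, h3⟩ := hN
  choose V v1 v2 v3 using hf
  refine ⟨fun x => W x ∩ V (N x) x, fun x => (h1 x).inter (v1 _ x), fun x => ⟨h2 x, v2 _ x⟩,
    fun p => ?_⟩
  obtain ⟨m, hm⟩ := h3 p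
  choose b hb using fun i => v3 i p
  refine ⟨∑ i ∈ Finset.range (m + 1), b i, fun x hx => ?_⟩
  exact (hb (N x) x hx.2).trans (Finset.single_le_sum (f := b) (fun _ _ => Nat.zero_le _)
    (Finset.mem_range.2 (Nat.lt_succ_of_le (hm x hx.1))))

theorem Good.comp {Y : Type*} [TopologicalSpace Y] {f : X → ℕ} (hf : Good f) {φ : Y → X}
    (hφ : Continuous φ) : ∃ W : Y → Set Y, (∀ x, IsOpen (W x)) ∧ (∀ x, x ∈ W x) ∧
      ∀ p, ∃ m, ∀ x, p ∈ W x → f (φ x) ≤ m := by
  obtain ⟨W, h1, h2, h3⟩ := hf
  refine ⟨fun y => φ ⁻¹' W (φ y), fun y => (h1 _).preimage hφ, fun y => h2 _, fun p => ?_⟩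
  obtain ⟨m, hm⟩ := h3 (φ p)
  exact ⟨m, fun y hy => hm (φ y) hy⟩

theorem IsDelta.good (h : IsDelta X) (f : X → ℕ) : Good f := (expands_iff f).1 (h f)

theorem isDelta_of_good (h : ∀ f : X → ℕ, Good f) : IsDelta X := fun f => (expands_iff f).2 (h f)

/-- Spaces with a continuous injection to a `Δ`-space. -/
theorem isDelta_of_injective {Z : Type u} [TopologicalSpace Z] (hZ : IsDelta Z) {φ : X → Z}
    (hφ : Continuous φ) (hi : Function.Injective φ) : IsDelta X := by
  refine isDelta_of_good fun f => ?_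
  obtain ⟨W, h1, h2, h3⟩ := (hZ.good (Function.extend φ f 0)).comp hφ
  refine ⟨W, h1, h2, fun p => ?_⟩
  obtain ⟨m, hm⟩ := h3 p
  refine ⟨m, fun x hx => ?_⟩
  have h4 := hm x hx
  rwa [hi.extend_apply] at h4

end

/-! ### the decomposition of Kuratowski and Sierpinski -/

theorem initial (k : ℕ) (γ : (ℵ_ (k + 1 : ℕ) : Cardinal.{u}).ord.ToType) :
    #(Set.Iic γ) ≤ ℵ_ (k : ℕ) := by
  have h0 : #(Set.Iio γ) < ℵ_ ((k + 1 : ℕ) : Ordinal) := mk_Iio_toType_ord_lt γ
  have h2 : (ℵ_ ((k + 1 : ℕ) : Ordinal) : Cardinal.{u}) = Order.succ (ℵ_ (k : Ordinal)) := by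
    rw [succ_aleph]
    simp
  have h1 : #(Set.Iio γ) ≤ ℵ_ (k : ℕ) := Order.lt_succ_iff.1 (lt_of_lt_of_eq h0 h2)
  have h3 : Set.Iic γ = Set.Iio γ ∪ {γ} := by
    ext x
    simp [le_iff_lt_or_eq]
  rw [h3]
  refine (mk_union_le _ _).trans (add_le_of_le (aleph0_le_aleph _) h1 ?_)
  rw [mk_singleton]
  exact (one_le_aleph0).trans (aleph0_le_aleph _)

theorem kur (k : ℕ) : ∀ (I : Type) [Fintype I] [DecidableEq I] (X : I → Type u)
    (A : ∀ i, Set (X i)), (∀ i, #(A i) ≤ ℵ_ (k : ℕ)) →
    ∃ F : Finset I → (i : I) → (∀ j, X j) → Set (X i),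
      (∀ S i x x', (∀ j ∈ S, x j = x' j) → F S i x = F S i x') ∧
      (∀ S i x, (F S i x).Countable) ∧
      ∀ x, (∀ i, x i ∈ A i) → ∃ S : Finset I, S.card ≤ k ∧ ∀ i, i ∉ S → x i ∈ F S i x := by
  induction k with
  | zero =>
    intro I _ _ X A hA
    refine ⟨fun _ i _ => A i, fun _ _ _ _ _ => rfl, fun S i x => ?_, fun x hx =>
      ⟨∅, le_rfl, fun i _ => hx i⟩⟩
    have h1 := hA i
    rw [Nat.cast_zero, aleph_zero] at h1
    exact (le_aleph0_iff_set_countable).1 h1
  | succ k ih =>
    intro I _ _ X A hA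
    classical
    have h1 : ∀ i, ∃ r : X i → (ℵ_ (k + 1 : ℕ) : Cardinal.{u}).ord.ToType, InjOn r (A i) := by
      intro i
      have h2 : #(A i) ≤ #((ℵ_ (k + 1 : ℕ) : Cardinal.{u}).ord.ToType) := by
        rw [mk_ord_toType]
        exact_mod_cast hA i
      obtain ⟨e⟩ := (Cardinal.le_def _ _).1 h2
      have h3 : Nonempty ((ℵ_ (k + 1 : ℕ) : Cardinal.{u}).ord.ToType) := by
        rw [← mk_ne_zero_iff, mk_ord_toType]
        exact (aleph_pos _).ne'
      obtain ⟨c⟩ := h3
      refine ⟨fun x => if h : x ∈ A i then e ⟨x, h⟩ else c, fun x hx y hy hxy => ?_⟩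
      simp only [hx, hy, dif_pos] at hxy
      have h4 := e.injective hxy
      exact congrArg Subtype.val h4
    choose r hr using h1
    have h2 : ∀ γ : (ℵ_ (k + 1 : ℕ) : Cardinal.{u}).ord.ToType, ∀ i,
        #({x | x ∈ A i ∧ r i x ≤ γ} : Set (X i)) ≤ ℵ_ (k : ℕ) := by
      intro γ i
      refine le_trans ?_ (initial k γ)
      refine mk_le_of_injective (f := fun x : ({x | x ∈ A i ∧ r i x ≤ γ} : Set (X i)) =>
        (⟨r i x.1, x.2.2⟩ : Set.Iic γ)) ?_
      intro x y hxy
      have h3 : r i x.1 = r i y.1 := congrArg Subtype.val hxy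
      exact Subtype.ext (hr i x.2.1 y.2.1 h3)
    choose F hF1 hF2 hF3 using fun γ => ih I X (fun i => {x | x ∈ A i ∧ r i x ≤ γ}) (h2 γ)
    refine ⟨fun S' i x => ⋃ m ∈ S', ⋃ S ∈ S'.powerset, F (r m (x m)) S i x, ?_, ?_, ?_⟩
    · intro S' i x x' h
      refine Set.iUnion₂_congr fun m hm => Set.iUnion₂_congr fun S hS => ?_
      rw [h m hm]
      exact hF1 _ S i x x' fun j hj => h j (Finset.mem_powerset.1 hS hj)
    · intro S' i x
      exact S'.countable_toSet.biUnion fun m _ => S'.powerset.countable_toSet.biUnion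
        fun S _ => hF2 _ S i x
    · intro x hx
      rcases isEmpty_or_nonempty I with hI | hI
      · exact ⟨∅, Nat.zero_le _, fun i => (hI.false i).elim⟩
      · obtain ⟨m, -, hm⟩ := Finset.exists_max_image (Finset.univ : Finset I)
          (fun i => r i (x i)) Finset.univ_nonempty
        obtain ⟨S, hS1, hS2⟩ := hF3 (r m (x m)) x fun i => ⟨hx i, hm i (Finset.mem_univ i)⟩
        refine ⟨insert m S, (Finset.card_insert_le m S).trans (Nat.succ_le_succ hS1),
          fun i hi => ?_⟩
        refine Set.mem_iUnion₂.2 ⟨m, Finset.mem_insert_self m S, Set.mem_iUnion₂.2 ⟨S,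
          Finset.mem_powerset.2 (Finset.subset_insert m S), ?_⟩⟩
        exact hS2 i fun h => hi (Finset.mem_insert_of_mem h)

/-! ### indices -/

open Classical in
/-- an index of the elements of the countable set `C` -/
noncomputable def idx {X : Type u} (C : Set X) : X → ℕ :=
  if h : ∃ f : X → ℕ, InjOn f C then h.choose else fun _ => 0

theorem idx_injOn {X : Type u} {C : Set X} (h : C.Countable) : InjOn (idx C) C := by
  have h1 : ∃ f : X → ℕ, InjOn f C := Set.countable_iff_exists_injOn.1 h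
  rw [idx, dif_pos h1]
  exact h1.choose_spec

section products

variable {I : Type} [Fintype I] [DecidableEq I] {X : I → Type u}

/-- functions with support in a product of small sets -/
theorem good_small [∀ i, TopologicalSpace (X i)] (k : ℕ) (A : ∀ i, Set (X i))
    (F : Finset I → (i : I) → (∀ j, X j) → Set (X i))
    (hF1 : ∀ S i x x', (∀ j ∈ S, x j = x' j) → F S i x = F S i x')
    (hF2 : ∀ S i x, (F S i x).Countable)
    (hF3 : ∀ x, (∀ i, x i ∈ A i) → ∃ S : Finset I, S.card ≤ k ∧ ∀ i, i ∉ S → x i ∈ F S i x)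
    (H : ∀ g : (∀ j, X j) → ℕ, (∃ S : Finset I, S.card ≤ k ∧
      ∀ x x', (∀ j ∈ S, x j = x' j) → g x = g x') → Good g)
    (hE : ∀ (S : Finset I) (i : I), S.card ≤ k → i ∉ S → Good fun x => idx (F S i x) (x i))
    (f : (∀ j, X j) → ℕ) (hf : ∀ x, f x ≠ 0 → ∀ i, x i ∈ A i) : Good f := by
  classical
  have h1 : ∀ S : Finset I, S.card ≤ k →
      Good (fun x => if ∀ i, i ∉ S → x i ∈ F S i x then f x else 0) := by
    intro S hS
    obtain ⟨N, hN⟩ : ∃ N : (∀ j, X j) → ℕ, N = fun x => ∑ i ∈ Sᶜ, idx (F S i x) (x i) := ⟨_, rfl⟩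
    have hNg : Good N := by
      rw [hN]
      exact good_sum _ _ fun i hi => hE S i hS (Finset.mem_compl.1 hi)
    -- the finite sets
    have hfin : ∀ (s : ℕ) (x : ∀ j, X j), {x' : ∀ j, X j | (∀ j ∈ S, x j = x' j) ∧
        (∀ i, i ∉ S → x' i ∈ F S i x') ∧ N x' ≤ s}.Finite := by
      intro s x
      have h2 : ∀ i, ({y : X i | i ∈ S ∧ y = x i} ∪
          {y | y ∈ F S i x ∧ idx (F S i x) y ≤ s}).Finite := by
        intro i
        refine Set.Finite.union ((Set.finite_singleton (x i)).subset fun y hy => hy.2) ?_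
        refine Set.Finite.of_finite_image ((Set.finite_Iic s).subset ?_)
          ((idx_injOn (hF2 S i x)).mono fun y hy => hy.1)
        rintro _ ⟨y, hy, rfl⟩
        exact hy.2
      refine (Set.Finite.pi' h2).subset ?_
      rintro x' ⟨h3, h4, h5⟩ i
      by_cases hi : i ∈ S
      · exact Or.inl ⟨hi, (h3 i hi).symm⟩
      · have h6 : F S i x = F S i x' := hF1 S i x x' h3
        refine Or.inr ⟨?_, ?_⟩
        · rw [h6]; exact h4 i hi
        · rw [h6]
          refine le_trans ?_ h5
          rw [hN]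
          exact Finset.single_le_sum (f := fun i => idx (F S i x') (x' i))
            (fun _ _ => Nat.zero_le _) (Finset.mem_compl.2 hi)
    have hg : ∀ s : ℕ, Good fun x => ∑ x' ∈ (hfin s x).toFinset, f x' := by
      intro s
      refine H _ ⟨S, hS, fun x y hxy => ?_⟩
      refine Finset.sum_congr ?_ fun _ _ => rfl
      ext x'
      simp only [Set.Finite.mem_toFinset, Set.mem_ofPred_eq]
      constructor
      · rintro ⟨h3, h4⟩
        exact ⟨fun j hj => (hxy j hj).symm.trans (h3 j hj), h4⟩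
      · rintro ⟨h3, h4⟩
        exact ⟨fun j hj => (hxy j hj).trans (h3 j hj), h4⟩
    refine (hNg.select hg).mono fun x => ?_
    split_ifs with h3
    · exact Finset.single_le_sum (f := f) (fun _ _ => Nat.zero_le _)
        ((hfin (N x) x).mem_toFinset.2 ⟨fun _ _ => rfl, h3, le_rfl⟩)
    · exact Nat.zero_le _
  have h2 := good_sum (Finset.univ.filter fun S : Finset I => S.card ≤ k)
    (fun S x => if ∀ i, i ∉ S → x i ∈ F S i x then f x else 0) fun S hS =>
      h1 S (Finset.mem_filter.1 hS).2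
  refine h2.mono fun x => ?_
  by_cases h3 : f x = 0
  · rw [h3]; exact Nat.zero_le _
  · obtain ⟨S, hS1, hS2⟩ := hF3 x (hf x h3)
    have h4 := Finset.single_le_sum (f := fun S : Finset I =>
      if ∀ i, i ∉ S → x i ∈ F S i x then f x else 0) (fun _ _ => Nat.zero_le _)
      (show S ∈ Finset.univ.filter (fun S : Finset I => S.card ≤ k) from
        Finset.mem_filter.2 ⟨Finset.mem_univ S, hS1⟩)
    simp only [if_pos hS2] at h4
    exact h4

/-- functions with support in the preimage of a relatively `σ`-finite set -/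
theorem good_rel [∀ i, TopologicalSpace (X i)] (i : I) (B : Set (X i)) (hB : RelSigmaFinite B)
    (f : (∀ j, X j) → ℕ) (hf : ∀ x, f x ≠ 0 → x i ∈ B)
    (H : ∀ b ∈ B, ∃ g : (∀ j, X j) → ℕ, Good g ∧ ∀ x, x i = b → f x ≤ g x) : Good f := by
  classical
  obtain ⟨Z, hZ, hW⟩ := hB
  choose V hV1 hV2 using hW
  choose! g hg1 hg2 using H
  choose! W hW1 hW2 hW3 using hg1
  refine ⟨fun x => if x i ∈ B then W (x i) x ∩ ⋂ n ∈ Finset.range (f x + 1), {p | p i ∈ V n (x i)}
    else univ, fun x => ?_, fun x => ?_, fun p => ?_⟩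
  · by_cases h1 : x i ∈ B
    · simp only [if_pos h1]
      refine (hW1 _ h1 x).inter (isOpen_biInter_finset fun n _ => ?_)
      exact (hV1 n _ h1).1.preimage (continuous_apply i)
    · simp only [if_neg h1]
      exact isOpen_univ
  · by_cases h1 : x i ∈ B
    · simp only [if_pos h1]
      exact ⟨hW2 _ h1 x, Set.mem_iInter₂.2 fun n _ => (hV1 n _ h1).2⟩
    · simp only [if_neg h1]
      exact mem_univ x
  · obtain ⟨N, hN⟩ := hZ (p i)
    have hfin := hV2 N (p i) hN
    choose! m hm using fun (b : X i) (hb : b ∈ B) => hW3 b hb p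
    refine ⟨N + ∑ b ∈ hfin.toFinset, m b, fun x hx => ?_⟩
    by_cases h1 : x i ∈ B
    · simp only [if_pos h1] at hx
      rcases Nat.lt_or_ge (f x) N with h2 | h2
      · omega
      · have h3 : p i ∈ V N (x i) :=
          Set.mem_iInter₂.1 hx.2 N (Finset.mem_range.2 (Nat.lt_succ_of_le h2))
        have h4 := Finset.single_le_sum (f := m) (fun _ _ => Nat.zero_le _)
          (hfin.mem_toFinset.2 (show x i ∈ {b | b ∈ B ∧ p i ∈ V N b} from ⟨h1, h3⟩))
        have h5 := hm (x i) h1 x hx.1
        have h6 := hg2 (x i) h1 x rfl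
        omega
    · have h2 : f x = 0 := by
        by_contra h3
        exact h1 (hf x h3)
      omega

variable [∀ i, Nonempty (X i)]

/-- extension by a base point -/
noncomputable def ext (S : Finset I) (y : ∀ i : S, X i) (i : I) : X i :=
  if h : i ∈ S then y ⟨i, h⟩ else Classical.arbitrary (X i)

theorem ext_continuous [∀ i, TopologicalSpace (X i)] (S : Finset I) :
    Continuous (ext S : (∀ i : S, X i) → ∀ i, X i) := by
  refine continuous_pi fun i => ?_
  unfold ext
  by_cases h : i ∈ S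
  · simp only [h, dif_pos]
    exact continuous_apply _
  · simp only [h, dif_neg, not_false_eq_true]
    exact continuous_const

theorem ext_injective (S : Finset I) :
    Function.Injective (ext S : (∀ i : S, X i) → ∀ i, X i) := by
  intro y y' h
  funext i
  have h1 := congrFun h i.1
  simpa only [ext, i.2, dif_pos] using h1

theorem good_depends [∀ i, TopologicalSpace (X i)] (S : Finset I)
    (hS : IsDelta (∀ i : S, X i)) (g : (∀ i, X i) → ℕ)
    (hg : ∀ x x', (∀ j ∈ S, x j = x' j) → g x = g x') : Good g := by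
  have h1 : Continuous (fun (x : ∀ i, X i) (i : S) => x i) :=
    continuous_pi fun i => continuous_apply i.1
  obtain ⟨W, w1, w2, w3⟩ := (hS.good (fun y => g (ext S y))).comp h1
  refine ⟨W, w1, w2, fun p => ?_⟩
  obtain ⟨m, hm⟩ := w3 p
  refine ⟨m, fun x hx => ?_⟩
  have h2 := hm x hx
  rwa [hg (ext S fun i : S => x i) x fun j hj => by simp only [ext, hj, dif_pos]] at h2

/-- from `k + 1` factors to all products -/
theorem main_two [∀ i, TopologicalSpace (X i)] (k : ℕ) (A : ∀ i, Set (X i))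
    (hA : ∀ i, #(A i) ≤ ℵ_ (k : ℕ)) (hB : ∀ i, RelSigmaFinite (A i)ᶜ)
    (H : ∀ S : Finset I, S.card ≤ k + 1 → IsDelta (∀ i : S, X i)) : IsDelta (∀ i, X i) := by
  classical
  have key : ∀ T : Finset I, ∀ A' : ∀ i, Set (X i), (∀ i, #(A' i) ≤ ℵ_ (k : ℕ)) →
      ∀ f : (∀ i, X i) → ℕ, (∀ x, f x ≠ 0 → (∀ i ∈ T, x i ∈ (A i)ᶜ) ∧ ∀ i, i ∉ T → x i ∈ A' i) →
      Good f := by
    intro T
    induction T using Finset.induction_on with
    | empty =>
      intro A' hA' f hf
      obtain ⟨F, hF1, hF2, hF3⟩ := kur k I X A' hA'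
      refine good_small k A' F hF1 hF2 hF3 ?_ ?_ f fun x hx i => (hf x hx).2 i (by simp)
      · rintro g ⟨S, hS, hg⟩
        exact good_depends S (H S (by omega)) g hg
      · intro S i hS hi
        refine good_depends (insert i S) (H _ ?_) _ fun x x' hxx => ?_
        · rw [Finset.card_insert_of_notMem hi]; omega
        · rw [hF1 S i x x' fun j hj => hxx j (Finset.mem_insert_of_mem hj),
            hxx i (Finset.mem_insert_self i S)]
    | insert i T hi ih =>
      intro A' hA' f hf
      refine good_rel i (A i)ᶜ (hB i) f (fun x hx => (hf x hx).1 i (Finset.mem_insert_self i T)) ?_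
      intro b hb
      refine ⟨fun x => if x i = b then f x else 0, ?_, fun x hx => le_of_eq (if_pos hx).symm⟩
      refine ih (Function.update A' i {b}) (fun j => ?_) _ fun x hx => ?_
      · by_cases h1 : j = i
        · subst h1
          rw [Function.update_self, mk_singleton]
          exact one_le_aleph0.trans (aleph0_le_aleph _)
        · rw [Function.update_of_ne h1]
          exact hA' j
      · by_cases h1 : x i = b
        · simp only [if_pos h1] at hx
          obtain ⟨h2, h3⟩ := hf x hx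
          refine ⟨fun j hj => h2 j (Finset.mem_insert_of_mem hj), fun j hj => ?_⟩
          by_cases h4 : j = i
          · subst h4
            rw [Function.update_self]
            exact h1
          · rw [Function.update_of_ne h4]
            exact h3 j fun h5 => (Finset.mem_insert.1 h5).elim h4 hj
        · simp only [if_neg h1] at hx
          exact absurd rfl hx
  refine isDelta_of_good fun f => ?_
  have h1 := good_sum (Finset.univ : Finset (Finset I))
    (fun T x => if ∀ i, x i ∈ (A i)ᶜ ↔ i ∈ T then f x else 0) fun T _ => by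
      refine key T A hA _ fun x hx => ?_
      by_cases h2 : ∀ i, x i ∈ (A i)ᶜ ↔ i ∈ T
      · exact ⟨fun i hi => (h2 i).2 hi, fun i hi => not_not.1 fun h3 => hi ((h2 i).1 h3)⟩
      · simp only [if_neg h2] at hx
        exact absurd rfl hx
  refine h1.mono fun x => ?_
  have h2 := Finset.single_le_sum (f := fun T : Finset I =>
    if ∀ i, x i ∈ (A i)ᶜ ↔ i ∈ T then f x else 0) (fun _ _ => Nat.zero_le _)
    (Finset.mem_univ (Finset.univ.filter fun i => x i ∈ (A i)ᶜ))
  have h3 : ∀ i, x i ∈ (A i)ᶜ ↔ i ∈ Finset.univ.filter fun i => x i ∈ (A i)ᶜ := by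
    intro i
    simp
  rw [if_pos h3] at h2
  exact h2

/-- `k + 1` factors -/
theorem main_three [∀ i, TopologicalSpace (X i)] (k : ℕ) (hI : Fintype.card I = k + 1)
    (A : ∀ i, Set (X i)) (hB : ∀ i, RelSigmaFinite (A i)ᶜ)
    (F : Finset I → (i : I) → (∀ j, X j) → Set (X i))
    (hF1 : ∀ S i x x', (∀ j ∈ S, x j = x' j) → F S i x = F S i x')
    (hF2 : ∀ S i x, (F S i x).Countable)
    (hF3 : ∀ x, (∀ i, x i ∈ A i) → ∃ S : Finset I, S.card ≤ k ∧ ∀ i, i ∉ S → x i ∈ F S i x)
    (H : ∀ g : (∀ j, X j) → ℕ, (∃ S : Finset I, S.card ≤ k ∧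
      ∀ x x', (∀ j ∈ S, x j = x' j) → g x = g x') → Good g)
    (hE : Good fun x => ∑ S : Finset I, ∑ i : I, idx (F S i x) (x i)) : IsDelta (∀ i, X i) := by
  classical
  refine isDelta_of_good fun f => ?_
  have h1 : Good (fun x => if ∀ i, x i ∈ A i then f x else 0) := by
    refine good_small k A F hF1 hF2 hF3 H (fun S i _ _ => hE.mono fun x => ?_) _ fun x hx => ?_
    · have h2 := Finset.single_le_sum (f := fun i => idx (F S i x) (x i))
        (fun _ _ => Nat.zero_le _) (Finset.mem_univ i)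
      have h3 := Finset.single_le_sum (f := fun S : Finset I => ∑ i : I, idx (F S i x) (x i))
        (fun _ _ => Nat.zero_le _) (Finset.mem_univ S)
      exact h2.trans h3
    · by_contra h2
      rw [if_neg h2] at hx
      exact hx rfl
  have h2 : ∀ i, Good (fun x => if x i ∈ (A i)ᶜ then f x else 0) := by
    intro i
    refine good_rel i (A i)ᶜ (hB i) _ (fun x hx => ?_) fun b hb => ?_
    · by_contra h3
      rw [if_neg h3] at hx
      exact hx rfl
    · refine ⟨fun x => f (Function.update x i b), ?_, fun x hx => ?_⟩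
      · refine H _ ⟨Finset.univ.erase i, ?_, fun x x' hxx => ?_⟩
        · rw [Finset.card_erase_of_mem (Finset.mem_univ i), Finset.card_univ, hI]
          omega
        · have h3 : Function.update x i b = Function.update x' i b := by
            funext j
            by_cases h4 : j = i
            · subst h4
              rw [Function.update_self, Function.update_self]
            · rw [Function.update_of_ne h4, Function.update_of_ne h4]
              exact hxx j (Finset.mem_erase.2 ⟨h4, Finset.mem_univ j⟩)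
          rw [h3]
      · have h3 : Function.update x i b = x := by
          rw [← hx]
          exact Function.update_eq_self i x
        simp only [h3]
        split_ifs
        · exact le_rfl
        · exact Nat.zero_le _
  have h3 := h1.add (good_sum (Finset.univ : Finset I)
    (fun i x => if x i ∈ (A i)ᶜ then f x else 0) fun i _ => h2 i)
  refine h3.mono fun x => ?_
  by_cases h4 : ∀ i, x i ∈ A i
  · rw [if_pos h4]
    exact Nat.le_add_right _ _
  · push Not at h4
    obtain ⟨i, hi⟩ := h4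
    have h5 := Finset.single_le_sum (f := fun i => if x i ∈ (A i)ᶜ then f x else 0)
      (fun _ _ => Nat.zero_le _) (Finset.mem_univ i)
    have h6 : x i ∈ (A i)ᶜ := hi
    rw [if_pos h6] at h5
    omega

end products

end Pool.Agent.helper22.FP
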